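import Pool.Agent.H.MP_15aca8.E

set_option autoImplicit false
open Set Filter Topology

namespace Pool.Agent.Results.MP_15aca8_an.NoSSD

theorem result : ∃ (X : Type) (_ : NormedAddCommGroup X) (_ : NormedSpace ℝ X)
    (_ : CompleteSpace X),
    (∀ Y : Submodule ℝ X, TopologicalSpace.SeparableSpace Y →
      TopologicalSpace.SeparableSpace (Y →L[ℝ] ℝ)) ∧
    ∀ N : X → ℝ, (∀ x y, N (x + y) ≤ N x + N y) → (∀ (c : ℝ) x, N (c • x) = |c| * N x) →
      (∃ a b : ℝ, 0 < a ∧ ∀ x, a * ‖x‖ ≤ N x ∧ N x ≤ b * ‖x‖) →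
      ∃ x : X, ¬ ∃ d : X → ℝ, TendstoUniformlyOn (fun (t : ℝ) h => (N (x + t • h) - N x) / t) d
        (𝓝[>] 0) {h | N h = 1} := by
  refine ⟨C(H.MP_15aca8.KK, ℝ), inferInstance, inferInstance, inferInstance,
    H.MP_15aca8.asplund OnePoint.infty H.MP_15aca8.count_closed, ?_⟩
  rintro N h1 h2 ⟨c, b, hc, h3⟩
  have hp : ∀ x, Seminorm.of N h1 h2 x ≤ (|b| + 1) * ‖x‖ := fun x => (h3 x).2.trans
    (mul_le_mul_of_nonneg_right ((le_abs_self b).trans (le_add_of_nonneg_right zero_le_one))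
      (norm_nonneg _))
  obtain ⟨a, ha, x, -, x1, -⟩ := H.MP_15aca8.whole (Seminorm.of N h1 h2) hp (by positivity)
    fun x hx => by
      have := (h3 x).1.trans_eq hx
      exact norm_le_zero_iff.1 (nonpos_of_mul_nonpos_right this hc)
  refine ⟨x, fun ⟨d, hd⟩ => ?_⟩
  obtain ⟨B, hB⟩ : ∃ B, B = 4 * (|b| + 1) := ⟨_, rfl⟩
  have B0 : 0 < B := by rw [hB]; positivity
  obtain ⟨t0, t1, t2⟩ := (mem_nhdsGT_iff_exists_Ioc_subset).1
    (Metric.tendstoUniformlyOn_iff.1 hd (a / B / 8) (by positivity))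
  have t1 : 0 < t0 := t1
  obtain ⟨h, τ, a1, a2, a3, a4, a5⟩ := x1 (min (t0 / B) (a / B / 8 * t0)) (by positivity)
  change N _ ≤ N _ - _ at a4
  change ∀ t : ℝ, N _ - _ ≤ N _ at a5
  have b1 : N h ≤ B := (hp h).trans (by rw [hB]; nlinarith [abs_nonneg b])
  have b2 : 0 < N h := by
    have e := h1 (x + τ • h) (-τ • h)
    rw [h2, abs_neg, abs_of_pos a1, add_assoc, ← add_smul, add_neg_cancel, zero_smul,
      add_zero] at e
    by_contra b
    nlinarith [mul_pos ha a1, mul_nonneg a1.le (neg_nonneg.2 (not_lt.1 b))]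
  have b3 : N ((N h)⁻¹ • h) = 1 := by
    rw [h2, abs_of_pos (inv_pos.2 b2), inv_mul_cancel₀ b2.ne']
  have b4 : τ * N h ≤ t0 := by
    have := a2.trans (min_le_left _ _)
    rw [le_div_iff₀ B0] at this
    nlinarith
  have c1 := t2 ⟨t1, le_rfl⟩ _ b3
  have c2 := t2 ⟨mul_pos a1 b2, b4⟩ _ b3
  rw [Real.dist_eq, abs_lt, smul_smul] at c1 c2
  rw [mul_assoc, mul_inv_cancel₀ b2.ne', mul_one] at c2
  have c3 : -(a / B / 8) ≤ (N (x + (t0 * (N h)⁻¹) • h) - N x) / t0 := by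
    rw [le_div_iff₀ t1]
    linarith [a5 (t0 * (N h)⁻¹), min_le_right (t0 / B) (a / B / 8 * t0)]
  have c4 : (N (x + τ • h) - N x) / (τ * N h) ≤ -(a / B / 2) := by
    rw [div_le_iff₀ (mul_pos a1 b2)]
    have : a / B * N h ≤ a := by
      rw [div_mul_eq_mul_div, div_le_iff₀ B0]
      nlinarith
    nlinarith
  have : 0 < a / B := by positivity
  linarith [c1.1, c2.2]

end Pool.Agent.Results.MP_15aca8_an.NoSSD
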